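import Pool.Agent.LibEnds72.Final

/-!
# A big mapping class group with exactly two ends

There is a connected open subset `U` of the plane whose fundamental group is not finitely
generated, such that the mapping class group `Map(U) = Homeo⁺(U) / Homeo₀(U)`, with the quotient
of the compact-open topology, is generated by an open symmetric coarsely bounded set and, for
every symmetric coarsely bounded generating set `A` with nonempty interior, the Cayley graph of
`Map(U)` with respect to `A` has exactly two ends and is quasi-isometric to `ℤ`.

The definitions `MCG`, `CoarselyBounded`, `Cay`, `numEnds`, `QIToInt` are in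
`Pool/Agent/LibEnds72/Defs.lean`.
-/

open scoped Pointwise

namespace Pool.Agent.Results.MP_2c17e9_gt.TwoEnds

theorem result : ∃ U : Set ℂ, IsOpen U ∧ IsConnected U ∧
    (∀ x : U, ¬ Group.FG (FundamentalGroup U x)) ∧
    (∃ A : Set (Ends72.MCG U), IsOpen A ∧ A⁻¹ = A ∧ Ends72.CoarselyBounded A ∧
      Subgroup.closure A = ⊤) ∧
    ∀ A : Set (Ends72.MCG U), (interior A).Nonempty → A⁻¹ = A → Ends72.CoarselyBounded A →
      Subgroup.closure A = ⊤ → Ends72.numEnds A = 2 ∧ Ends72.QIToInt A :=
  Ends72.main

end Pool.Agent.Results.MP_2c17e9_gt.TwoEnds
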